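import Mathlib

namespace Pool.Agent.Results.MP_ebd9af_co.FourCircuits

variable {V W : Type}

/-- A tournament given by its arc relation. -/
def IsTournament (T : V → V → Prop) : Prop :=
  (∀ v, ¬ T v v) ∧ ∀ u v, u ≠ v → (T u v ↔ ¬ T v u)

/-- Strong: a directed path between any two vertices. -/
def IsStrong (T : V → V → Prop) : Prop := ∀ u v, Relation.ReflTransGen T u v

/-- The arc set. -/
def Arc (T : V → V → Prop) : Type := {p : V × V // T p.1 p.2}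

/-- `C` is the arc set of a 4-circuit. -/
def IsFourCircuit (T : V → V → Prop) (C : Set (Arc T)) : Prop :=
  ∃ v : Fin 4 → V, Function.Injective v ∧ (∀ i, T (v i) (v (i + 1))) ∧
    ∀ a : Arc T, a ∈ C ↔ ∃ i, a.1 = (v i, v (i + 1))

/-- `T₂` is isomorphic to `T₁` or to its converse. -/
def IsoOrConverse (T₁ : V → V → Prop) (T₂ : W → W → Prop) : Prop :=
  (∃ e : V ≃ W, ∀ u v, T₂ (e u) (e v) ↔ T₁ u v) ∨ ∃ e : V ≃ W, ∀ u v, T₂ (e u) (e v) ↔ T₁ v u

def A1 (u v : Fin 5) : Prop := (u, v) ∈ ([(0, 1), (0, 2), (0, 3), (1, 2), (1, 3), (1, 4), (2, 3),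
  (3, 4), (4, 0), (4, 2)] : List (Fin 5 × Fin 5))

def A2 (u v : Fin 5) : Prop := (u, v) ∈ ([(0, 1), (0, 2), (0, 3), (1, 2), (1, 3), (1, 4), (2, 3),
  (3, 4), (4, 0), (2, 4)] : List (Fin 5 × Fin 5))

instance : DecidableRel A1 := fun _ _ => inferInstanceAs (Decidable (_ ∈ _))
instance : DecidableRel A2 := fun _ _ => inferInstanceAs (Decidable (_ ∈ _))

def fw (p : Fin 5 × Fin 5) : Fin 5 × Fin 5 := if p = (4, 2) then (2, 4) else p
def bw (p : Fin 5 × Fin 5) : Fin 5 × Fin 5 := if p = (2, 4) then (4, 2) else p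

theorem fw_ok : ∀ p : Fin 5 × Fin 5, A1 p.1 p.2 → A2 (fw p).1 (fw p).2 ∧ bw (fw p) = p := by decide
theorem bw_ok : ∀ p : Fin 5 × Fin 5, A2 p.1 p.2 → A1 (bw p).1 (bw p).2 ∧ fw (bw p) = p := by decide

def phi : Arc A1 ≃ Arc A2 where
  toFun a := ⟨fw a.1, (fw_ok _ a.2).1⟩
  invFun a := ⟨bw a.1, (bw_ok _ a.2).1⟩
  left_inv a := Subtype.ext (fw_ok _ a.2).2
  right_inv a := Subtype.ext (bw_ok _ a.2).2

theorem strong_of (T : Fin 5 → Fin 5 → Prop) (c : Fin 5 → Fin 5) (h : ∀ u, T u (c u))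
    (hc : ∀ u v, ∃ k : Fin 5, c^[k] u = v) : IsStrong T := by
  intro u v
  obtain ⟨k, rfl⟩ := hc u v
  generalize k.val = m
  induction m with
  | zero => exact .refl
  | succ m ih => rw [Function.iterate_succ_apply']; exact ih.tail (h _)

theorem no42 : ∀ a b c d : Fin 5, A1 a b → A1 b c → A1 c d → A1 d a → a ≠ c → b ≠ d →
    (a, b) ≠ (4, 2) := by decide +kernel

theorem result : ∃ (n m : ℕ) (T₁ : Fin (n + 1) → Fin (n + 1) → Prop)
    (T₂ : Fin (m + 1) → Fin (m + 1) → Prop) (φ : Arc T₁ ≃ Arc T₂),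
    IsTournament T₁ ∧ IsTournament T₂ ∧ IsStrong T₁ ∧ IsStrong T₂ ∧
    (∀ C, IsFourCircuit T₁ C → IsFourCircuit T₂ (φ '' C)) ∧ ¬ IsoOrConverse T₁ T₂ := by
  refine ⟨4, 4, A1, A2, phi, ⟨by decide, by decide⟩, ⟨by decide, by decide⟩,
    strong_of A1 ![1, 2, 3, 4, 0] (by decide) (by decide),
    strong_of A2 ![1, 2, 3, 4, 0] (by decide) (by decide), ?_, ?_⟩
  · rintro C ⟨v, hv, hT, hC⟩
    have hne : ∀ i, fw (v i, v (i + 1)) = (v i, v (i + 1)) := by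
      intro i
      have f1 : ∀ i : Fin 4, i + 1 + 1 + 1 + 1 = i := by decide
      have f2 : ∀ i : Fin 4, i ≠ i + 1 + 1 := by decide
      have h3 := hT (i + 1 + 1 + 1)
      rw [f1] at h3
      exact if_neg (no42 _ _ _ _ (hT i) (hT (i + 1)) (hT (i + 1 + 1)) h3
        (fun h => f2 _ (hv h)) (fun h => f2 _ (hv h)))
    refine ⟨v, hv, fun i => ?_, fun a => ?_⟩
    · have := (fw_ok (v i, v (i + 1)) (hT i)).1
      rwa [hne] at this
    · constructor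
      · rintro ⟨b, hb, rfl⟩
        obtain ⟨i, hi⟩ := (hC b).1 hb
        exact ⟨i, by show fw b.1 = _; rw [hi, hne]⟩
      · rintro ⟨i, hi⟩
        refine ⟨⟨(v i, v (i + 1)), hT i⟩, (hC _).2 ⟨i, rfl⟩, Subtype.ext ?_⟩
        show fw _ = _
        rw [hne, hi]
  · rintro (⟨e, he⟩ | ⟨e, he⟩) <;> revert e <;> decide +kernel

end Pool.Agent.Results.MP_ebd9af_co.FourCircuits
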